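import Pool.Agent.V5helper49.IR.Stm

set_option autoImplicit false

namespace Pool.Agent.V5helper11.IR

open Finset MeasureTheory ProbabilityTheory Filter Topology
open scoped ENNReal

open Classical in
theorem t_REP : Pool.Agent.V5helper49.IR.S_REP := by
  intro c hc A hA
  by_contra hcon
  rw [Filter.not_frequently] at hcon
  obtain ⟨n0, hn0⟩ := Filter.eventually_atTop.1 hcon
  set R : ℕ → Set (ℕ × ℕ) := fun n => {x : ℕ × ℕ | x.1 ∈ A ∧ x.2 ∈ A ∧ x.1 + x.2 = n} with hR
  have hsub : ∀ n, R n ⊆ (Finset.HasAntidiagonal.antidiagonal n : Finset (ℕ × ℕ)) := by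
    intro n x hx
    rw [Finset.mem_coe, Finset.HasAntidiagonal.mem_antidiagonal]
    exact hx.2.2
  have hfin : ∀ n, (R n).Finite := fun n => (Finset.finite_toSet _).subset (hsub n)
  have hle : ∀ n, ((R n).ncard : ℝ) ≤ n + 1 := by
    intro n
    have h := Set.ncard_le_ncard (hsub n) (Finset.finite_toSet _)
    rw [Set.ncard_coe_finset, Finset.Nat.card_antidiagonal] at h
    exact_mod_cast h
  have hlog : ∀ᶠ N : ℕ in atTop,
      (3 * (n0 : ℝ) + 3 * c ^ 2 / 4 * Real.log 2 + 1) * (4 / c ^ 2) ≤ Real.log N :=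
    (Real.tendsto_log_atTop.comp tendsto_natCast_atTop_atTop).eventually_ge_atTop _
  obtain ⟨N, hN1, hN2, hN3⟩ := (hA.and (hlog.and (eventually_ge_atTop 1))).exists
  set AN : Finset ℕ := (range (N + 1)).filter (fun k => k ∈ A) with hAN
  have hNpos : (1 : ℝ) ≤ N := by exact_mod_cast hN3
  have hlogN : 0 ≤ Real.log N := Real.log_nonneg hNpos
  -- the squares
  have h1 : c ^ 2 * (N * Real.log N) ≤ ((AN.card : ℝ)) ^ 2 := by
    have h2 : 0 ≤ c * Real.sqrt (N * Real.log N) := by positivity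
    have h3 := pow_le_pow_left₀ h2 hN1 2
    rw [mul_pow, Real.sq_sqrt (by positivity)] at h3
    exact h3
  have h4 : (AN ×ˢ AN).card = ∑ n ∈ range (2 * N + 1), ((AN ×ˢ AN).filter (fun x => x.1 + x.2 = n)).card := by
    apply Finset.card_eq_sum_card_fiberwise
    intro x hx
    have hx' := Finset.mem_product.1 (Finset.mem_coe.1 hx)
    have h5 := Finset.mem_range.1 (Finset.mem_filter.1 hx'.1).1
    have h6 := Finset.mem_range.1 (Finset.mem_filter.1 hx'.2).1
    rw [Finset.mem_coe, Finset.mem_range]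
    show x.1 + x.2 < 2 * N + 1
    omega
  have h7 : ∀ n, (((AN ×ˢ AN).filter (fun x => x.1 + x.2 = n)).card : ℝ) ≤ ((R n).ncard : ℝ) := by
    intro n
    have h8 : (((AN ×ˢ AN).filter (fun x => x.1 + x.2 = n) : Finset (ℕ × ℕ)) : Set (ℕ × ℕ)) ⊆ R n := by
      intro x hx
      have hx' := Finset.mem_filter.1 (Finset.mem_coe.1 hx)
      have hx'' := Finset.mem_product.1 hx'.1
      exact ⟨(Finset.mem_filter.1 hx''.1).2, (Finset.mem_filter.1 hx''.2).2, hx'.2⟩
    have h9 := Set.ncard_le_ncard h8 (hfin n)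
    rw [Set.ncard_coe_finset] at h9
    exact_mod_cast h9
  have h2N : 0 ≤ Real.log (2 * N) := Real.log_nonneg (by linarith)
  have h10 : ∀ n ∈ range (2 * N + 1), (((AN ×ˢ AN).filter (fun x => x.1 + x.2 = n)).card : ℝ) ≤
      n0 + c ^ 2 / 4 * Real.log (2 * N) := by
    intro n hn
    refine (h7 n).trans ?_
    by_cases hnn : n < n0
    · have h11 : (n : ℝ) + 1 ≤ n0 := by exact_mod_cast hnn
      have h12 := hle n
      have h13 : 0 ≤ c ^ 2 / 4 * Real.log (2 * N) := by positivity
      linarith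
    · have h11 := hn0 n (not_lt.1 hnn)
      have h11' : ((R n).ncard : ℝ) < c ^ 2 / 4 * Real.log n := not_le.1 h11
      have h12 : Real.log n ≤ Real.log (2 * N) := by
        rcases Nat.eq_zero_or_pos n with h0 | h0
        · subst h0
          simpa using h2N
        · apply Real.log_le_log (by exact_mod_cast h0)
          have := Finset.mem_range.1 hn
          have h13 : n ≤ 2 * N := by omega
          exact_mod_cast h13
      have h14 : c ^ 2 / 4 * Real.log n ≤ c ^ 2 / 4 * Real.log (2 * N) :=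
        mul_le_mul_of_nonneg_left h12 (by positivity)
      have h15 : (0 : ℝ) ≤ n0 := by positivity
      linarith
  have h16 : ((AN.card : ℝ)) ^ 2 ≤ (2 * N + 1) * (n0 + c ^ 2 / 4 * Real.log (2 * N)) := by
    have h17 : ((AN.card : ℝ)) ^ 2 = (((AN ×ˢ AN).card : ℕ) : ℝ) := by
      rw [Finset.card_product]
      push_cast
      ring
    rw [h17, h4]
    push_cast
    refine (Finset.sum_le_sum h10).trans (le_of_eq ?_)
    rw [Finset.sum_const, Finset.card_range, nsmul_eq_mul]
    push_cast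
    ring
  have h18 : Real.log (2 * N) = Real.log 2 + Real.log N :=
    Real.log_mul (by norm_num) (by linarith)
  have hl2 : 0 ≤ Real.log 2 := Real.log_nonneg (by norm_num)
  have hn0r : (0 : ℝ) ≤ n0 := by positivity
  have h19 : c ^ 2 * (N * Real.log N) ≤ 3 * N * (n0 + c ^ 2 / 4 * (Real.log 2 + Real.log N)) := by
    rw [h18] at h16
    refine (h1.trans h16).trans ?_
    apply mul_le_mul_of_nonneg_right (by linarith)
    positivity
  have h20 : c ^ 2 * Real.log N ≤ 3 * (n0 + c ^ 2 / 4 * (Real.log 2 + Real.log N)) := by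
    have h21 : (N : ℝ) * (c ^ 2 * Real.log N) ≤ N * (3 * (n0 + c ^ 2 / 4 * (Real.log 2 + Real.log N))) := by
      linarith
    exact le_of_mul_le_mul_left h21 (by linarith)
  have h22 : (3 * (n0 : ℝ) + 3 * c ^ 2 / 4 * Real.log 2 + 1) ≤ c ^ 2 / 4 * Real.log N := by
    have hc2 : 0 < c ^ 2 := by positivity
    calc (3 * (n0 : ℝ) + 3 * c ^ 2 / 4 * Real.log 2 + 1) =
        c ^ 2 / 4 * ((3 * (n0 : ℝ) + 3 * c ^ 2 / 4 * Real.log 2 + 1) * (4 / c ^ 2)) := by
          field_simp
      _ ≤ c ^ 2 / 4 * Real.log N := mul_le_mul_of_nonneg_left hN2 (by positivity)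
  nlinarith

end Pool.Agent.V5helper11.IR
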